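import Pool.Agent.Y332.HC.Kr

/-!
Homomorphism sums modulo a prime: only the fixed rows and columns of an automorphism of prime order
matter (helper332).
-/

set_option autoImplicit false

namespace Pool.Agent.Y332.HC

open Finset Pool.Agent.Results.MP_ced6ff_co.HadamardClasses

theorem card_fixed {X : Type} [Fintype X] [DecidableEq X] {p : ℕ} [Fact p.Prime] (f : X → X)
    (hf : f^[p] = id) (P : X → Prop) [DecidablePred P] (hP : ∀ x, P (f x) ↔ P x) :
    (univ.filter P).card ≡ (univ.filter (fun x => f x = x ∧ P x)).card [MOD p] := by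
  let f' : Function.End {x // P x} := fun x => ⟨f x.1, (hP x.1).mpr x.2⟩
  have hpow : ∀ (k : ℕ) (x : {x // P x}), ((f' ^ k) x).1 = f^[k] x.1 := by
    intro k
    induction k with
    | zero => intro x; rfl
    | succ k ih =>
      intro x
      rw [pow_succ, Function.iterate_succ_apply]
      exact ih (f' x)
  have hf' : f' ^ p ^ 1 = 1 := by
    rw [pow_one]
    funext x
    apply Subtype.ext
    rw [hpow, hf]
    rfl
  have h := Equiv.Perm.card_fixedPoints_modEq hf'
  have e1 : Fintype.card {x // P x} = (univ.filter P).card := Fintype.card_subtype P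
  have e2 : Fintype.card (Function.fixedPoints f') =
      (univ.filter (fun x => f x = x ∧ P x)).card := by
    rw [← Fintype.card_subtype]
    refine Fintype.card_congr ⟨fun x => ⟨x.1.1, ?_, x.1.2⟩, fun x => ⟨⟨x.1, x.2.2⟩, ?_⟩,
      fun x => rfl, fun x => rfl⟩
    · exact congrArg Subtype.val x.2
    · exact Subtype.ext x.2.1
  rw [← e1, ← e2]
  exact h

theorem sum_fixed {X : Type} [Fintype X] [DecidableEq X] {p : ℕ} [Fact p.Prime] (f : X → X)
    (hf : f^[p] = id) (w : X → ℤ) (hw : ∀ x, w (f x) = w x) (h1 : ∀ x, w x = 1 ∨ w x = -1) :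
    ∑ x, w x ≡ ∑ x ∈ univ.filter (fun x => f x = x), w x [ZMOD p] := by
  have key : ∀ s : Finset X, ∑ x ∈ s, w x =
      ((s.filter (fun x => w x = 1)).card : ℤ) - ((s.filter (fun x => w x = -1)).card : ℤ) := by
    intro s
    rw [Finset.card_filter, Finset.card_filter]
    push_cast
    rw [← Finset.sum_sub_distrib]
    refine Finset.sum_congr rfl (fun x _ => ?_)
    rcases h1 x with h | h <;> rw [h] <;> norm_num
  rw [key, key, Finset.filter_filter, Finset.filter_filter]
  have a1 := card_fixed f hf (fun x => w x = 1) (fun x => by rw [hw])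
  have a2 := card_fixed f hf (fun x => w x = -1) (fun x => by rw [hw])
  exact (Int.natCast_modEq_iff.mpr a1).sub (Int.natCast_modEq_iff.mpr a2)

theorem iter_pi {α k : Type} (g : α → α) (n : ℕ) (u : k → α) :
    (fun v : k → α => g ∘ v)^[n] u = g^[n] ∘ u := by
  induction n generalizing u with
  | zero => rfl
  | succ n ih => rw [Function.iterate_succ_apply, ih, Function.iterate_succ]; rfl

/-- The homomorphism sums modulo `p` only see the fixed rows and columns. -/
theorem hom_fixed {α β α0 β0 : Type} [Fintype α] [Fintype β] [Fintype α0] [Fintype β0]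
    [DecidableEq α] [DecidableEq β] {p : ℕ} [Fact p.Prime] (A : α → β → ℤ)
    (h1 : ∀ a b, A a b = 1 ∨ A a b = -1) (g : α → α) (g' : β → β) (hg : g^[p] = id)
    (hg' : g'^[p] = id) (hA : ∀ a b, A (g a) (g' b) = A a b) (i : α0 → α) (i' : β0 → β)
    (hi : Function.Injective i) (hi' : Function.Injective i')
    (hr : ∀ a, g a = a ↔ ∃ x, i x = a) (hr' : ∀ b, g' b = b ↔ ∃ x, i' x = b)
    (n : ℕ) (S : Finset (Fin n × Fin n)) :
    hom S A ≡ hom S (fun a b => A (i a) (i' b)) [ZMOD p] := by
  have e1 : hom S A = ∑ x : (Fin n → α) × (Fin n → β), ∏ q ∈ S, A (x.1 q.1) (x.2 q.2) := by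
    unfold hom
    rw [Fintype.sum_prod_type]
  rw [e1]
  have hs : ∀ x : (Fin n → α) × (Fin n → β), (∏ q ∈ S, A (x.1 q.1) (x.2 q.2)) = 1 ∨
      (∏ q ∈ S, A (x.1 q.1) (x.2 q.2)) = -1 := by
    intro x
    induction S using Finset.induction_on with
    | empty => left; simp
    | insert a s ha ih =>
      rw [Finset.prod_insert ha]
      rcases h1 (x.1 a.1) (x.2 a.2) with h | h <;> rcases ih (by
        unfold hom
        rw [Fintype.sum_prod_type]) with h' | h' <;> rw [h, h'] <;> simp
  refine (sum_fixed (fun x : (Fin n → α) × (Fin n → β) => (g ∘ x.1, g' ∘ x.2)) ?_ _ ?_ hs).trans ?_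
  · funext x
    have : ∀ (k : ℕ) (y : (Fin n → α) × (Fin n → β)),
        (fun x : (Fin n → α) × (Fin n → β) => (g ∘ x.1, g' ∘ x.2))^[k] y =
          (g^[k] ∘ y.1, g'^[k] ∘ y.2) := by
      intro k
      induction k with
      | zero => intro y; rfl
      | succ k ih =>
        intro y
        rw [Function.iterate_succ_apply, ih, Function.iterate_succ, Function.iterate_succ]
        rfl
    rw [this, hg, hg']
    rfl
  · intro x
    refine Finset.prod_congr rfl (fun q _ => ?_)
    exact hA _ _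
  · have : (∑ x ∈ univ.filter (fun x : (Fin n → α) × (Fin n → β) => (g ∘ x.1, g' ∘ x.2) = x),
        ∏ q ∈ S, A (x.1 q.1) (x.2 q.2)) = hom S (fun a b => A (i a) (i' b)) := by
      unfold hom
      rw [← Fintype.sum_prod_type' (fun (u : Fin n → α0) (v : Fin n → β0) =>
        ∏ q ∈ S, A (i (u q.1)) (i' (v q.2)))]
      symm
      refine Finset.sum_bij (fun y _ => (i ∘ y.1, i' ∘ y.2)) ?_ ?_ ?_ ?_
      · intro y _
        rw [Finset.mem_filter]
        refine ⟨Finset.mem_univ _, ?_⟩
        simp only [Prod.mk.injEq]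
        exact ⟨funext fun k => (hr _).mpr ⟨_, rfl⟩, funext fun k => (hr' _).mpr ⟨_, rfl⟩⟩
      · intro y _ y' _ hyy
        simp only [Prod.mk.injEq] at hyy
        exact Prod.ext (hi.comp_left hyy.1) (hi'.comp_left hyy.2)
      · intro x hx
        rw [Finset.mem_filter] at hx
        have hx1 : ∀ k, g (x.1 k) = x.1 k := fun k => congrFun (congrArg Prod.fst hx.2) k
        have hx2 : ∀ k, g' (x.2 k) = x.2 k := fun k => congrFun (congrArg Prod.snd hx.2) k
        choose u hu using fun k => (hr _).mp (hx1 k)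
        choose v hv using fun k => (hr' _).mp (hx2 k)
        exact ⟨(u, v), Finset.mem_univ _, Prod.ext (funext hu) (funext hv)⟩
      · intro y _
        rfl
    rw [this]

/-- The homomorphism sums into the Hadamard matrix of order two are powers of two, up to a factor
dividing a power of two. -/
theorem hom_s2_dvd (n : ℕ) (S : Finset (Fin n × Fin n)) : hom S s2 ∣ (2 : ℤ) ^ (n + n) := by
  let e : Fin 2 ≃ ℤˣ := ⟨fun a => if a = 1 then -1 else 1, fun s => if s = -1 then 1 else 0,
    by decide, by decide⟩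
  have h0 : hom S s2 = hom S (fun (a : ℤˣ) (b : Fin 2) => if b = 1 then (a : ℤ) else 1) := by
    refine hom_reindex S _ _ e (Equiv.refl _) (fun a b => ?_)
    revert a b
    decide
  let φ : Fin n → (Fin n → ℤˣ) →* ℤˣ := fun j =>
    { toFun := fun u => ∏ q ∈ S.filter (fun q => q.2 = j), u q.1
      map_one' := by simp
      map_mul' := fun u v => by simp [Finset.prod_mul_distrib] }
  let U : Subgroup (Fin n → ℤˣ) := ⨅ j, (φ j).ker
  have hU : ∀ u, u ∈ U ↔ ∀ j, φ j u = 1 := by
    intro u
    simp only [U, Subgroup.mem_iInf, MonoidHom.mem_ker]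
  have key : hom S (fun (a : ℤˣ) (b : Fin 2) => if b = 1 then (a : ℤ) else 1) =
      ∑ u : Fin n → ℤˣ, ∏ j : Fin n, (1 + ((φ j u : ℤˣ) : ℤ)) := by
    unfold hom
    refine Finset.sum_congr rfl (fun u _ => ?_)
    have h1 : ∀ v : Fin n → Fin 2, ∏ q ∈ S, (if v q.2 = 1 then ((u q.1 : ℤˣ) : ℤ) else 1) =
        ∏ j : Fin n, (if v j = 1 then ((φ j u : ℤˣ) : ℤ) else 1) := by
      intro v
      rw [← Finset.prod_fiberwise S (fun q => q.2)]
      refine Finset.prod_congr rfl (fun j _ => ?_)
      by_cases hv : v j = 1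
      · rw [if_pos hv]
        simp only [φ, MonoidHom.coe_mk, OneHom.coe_mk, Units.coe_prod]
        refine Finset.prod_congr rfl (fun q hq => ?_)
        rw [Finset.mem_filter] at hq
        rw [hq.2, if_pos hv]
      · rw [if_neg hv]
        refine Finset.prod_eq_one (fun q hq => ?_)
        rw [Finset.mem_filter] at hq
        rw [hq.2, if_neg hv]
    rw [Finset.sum_congr rfl (fun v _ => h1 v)]
    have h2 := Finset.prod_univ_sum (fun _ : Fin n => (Finset.univ : Finset (Fin 2)))
      (fun (j : Fin n) (b : Fin 2) => (if b = 1 then ((φ j u : ℤˣ) : ℤ) else 1))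
    rw [Fintype.piFinset_univ] at h2
    rw [← h2]
    refine Finset.prod_congr rfl (fun j _ => ?_)
    rw [Fin.sum_univ_two]
    simp
  classical
  have h3 : ∀ u : Fin n → ℤˣ, ∏ j : Fin n, (1 + ((φ j u : ℤˣ) : ℤ)) =
      if u ∈ U then (2 : ℤ) ^ n else 0 := by
    intro u
    by_cases hu : u ∈ U
    · rw [if_pos hu]
      rw [hU] at hu
      rw [Finset.prod_congr rfl (fun j _ => by rw [hu j])]
      simp
    · rw [if_neg hu]
      rw [hU] at hu
      push Not at hu
      obtain ⟨j, hj⟩ := hu
      refine Finset.prod_eq_zero (Finset.mem_univ j) ?_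
      rcases Int.units_eq_one_or (φ j u) with h | h
      · exact absurd h hj
      · rw [h]; simp
  have h4 : (∑ u : Fin n → ℤˣ, if u ∈ U then (2 : ℤ) ^ n else 0) = Nat.card U * (2 : ℤ) ^ n := by
    rw [← Finset.sum_filter, Finset.sum_const, nsmul_eq_mul]
    congr 2
    rw [Nat.card_eq_fintype_card, Fintype.card_subtype]
  rw [h0, key, Finset.sum_congr rfl (fun u _ => h3 u), h4, pow_add]
  refine mul_dvd_mul ?_ dvd_rfl
  have h5 := Subgroup.card_subgroup_dvd_card U
  have h6 : Nat.card (Fin n → ℤˣ) = 2 ^ n := by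
    rw [Nat.card_eq_fintype_card]
    simp
  rw [h6] at h5
  exact_mod_cast h5

theorem good_s2_mod {p : ℕ} (hp : p.Prime) (hp2 : p ≠ 2) (n : ℕ) (S : Finset (Fin n × Fin n)) :
    ¬ (p : ℤ) ∣ hom S s2 := by
  intro h
  have h1 := h.trans (hom_s2_dvd n S)
  have h2 : p ∣ 2 ^ (n + n) := by exact_mod_cast h1
  exact hp2 ((Nat.prime_dvd_prime_iff_eq hp Nat.prime_two).mp (hp.dvd_of_dvd_pow h2))

end Pool.Agent.Y332.HC
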