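import Pool.Agent.Results.MP_ced6ff_co.HadamardClasses

/-!
Kronecker products of Hadamard matrices and cancellation (helper332).

`hom S A` is the weighted number of maps of the bipartite graph with edge set `S` into `A` (starting
file `HadamardClasses`).  If all `hom S A` are nonzero, then the Kronecker product with `A` is
injective on equivalence classes.
-/

set_option autoImplicit false

namespace Pool.Agent.Y332.HC

open Finset Pool.Agent.Results.MP_ced6ff_co.HadamardClasses

/-- The Kronecker product `M ⊗ H`, as a matrix of order `m n`. -/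
def kr {m n : ℕ} (M : Matrix (Fin m) (Fin m) ℤ) (H : Matrix (Fin n) (Fin n) ℤ) :
    Matrix (Fin (m * n)) (Fin (m * n)) ℤ :=
  fun i j => M (finProdFinEquiv.symm i).1 (finProdFinEquiv.symm j).1 *
    H (finProdFinEquiv.symm i).2 (finProdFinEquiv.symm j).2

/-- All homomorphism sums into `A` are nonzero. -/
def Good {α β : Type} [Fintype α] [Fintype β] (A : α → β → ℤ) : Prop :=
  ∀ (n : ℕ) (S : Finset (Fin n × Fin n)), hom S A ≠ 0

theorem rows {n : ℕ} {H : Matrix (Fin n) (Fin n) ℤ} (h : IsHadamard H) (a b : Fin n) :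
    ∑ k, H a k * H b k = if a = b then (n : ℤ) else 0 := by
  have := congrFun (congrFun h.2 a) b
  rw [Matrix.mul_apply] at this
  simp only [Matrix.transpose_apply, Matrix.smul_apply, Matrix.one_apply] at this
  rw [this]
  split_ifs <;> simp

theorem isHadamard_of {n : ℕ} {H : Matrix (Fin n) (Fin n) ℤ} (h1 : ∀ i j, H i j = 1 ∨ H i j = -1)
    (h2 : ∀ a b : Fin n, ∑ k, H a k * H b k = if a = b then (n : ℤ) else 0) : IsHadamard H := by
  refine ⟨h1, ?_⟩
  ext i j
  rw [Matrix.mul_apply]
  simp only [Matrix.transpose_apply, Matrix.smul_apply, Matrix.one_apply]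
  rw [h2]
  split_ifs <;> simp

theorem kr_hadamard {m n : ℕ} {M : Matrix (Fin m) (Fin m) ℤ} {H : Matrix (Fin n) (Fin n) ℤ}
    (hM : IsHadamard M) (h : IsHadamard H) : IsHadamard (kr M H) := by
  refine isHadamard_of (fun i j => ?_) (fun i j => ?_)
  · unfold kr
    rcases h.1 (finProdFinEquiv.symm i).2 (finProdFinEquiv.symm j).2 with h1 | h1 <;>
      rcases hM.1 (finProdFinEquiv.symm i).1 (finProdFinEquiv.symm j).1 with h2 | h2 <;>
      rw [h1, h2] <;> simp
  · have h4 : (∑ k, kr M H i k * kr M H j k) =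
        ∑ q : Fin m × Fin n, (M (finProdFinEquiv.symm i).1 q.1 *
          H (finProdFinEquiv.symm i).2 q.2) * (M (finProdFinEquiv.symm j).1 q.1 *
          H (finProdFinEquiv.symm j).2 q.2) := by
      refine (Fintype.sum_equiv finProdFinEquiv _ _ (fun q => ?_)).symm
      simp only [kr, Equiv.symm_apply_apply]
    rw [h4, Fintype.sum_prod_type]
    have h5 : ∀ x : Fin m, (∑ k : Fin n, (M (finProdFinEquiv.symm i).1 x *
          H (finProdFinEquiv.symm i).2 k) * (M (finProdFinEquiv.symm j).1 x *
          H (finProdFinEquiv.symm j).2 k)) =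
          (M (finProdFinEquiv.symm i).1 x * M (finProdFinEquiv.symm j).1 x) *
          (if (finProdFinEquiv.symm i).2 = (finProdFinEquiv.symm j).2 then (n : ℤ) else 0) := by
      intro x
      rw [← rows h, Finset.mul_sum]
      refine Finset.sum_congr rfl (fun k _ => ?_)
      ring
    rw [Finset.sum_congr rfl (fun x _ => h5 x), ← Finset.sum_mul, rows hM]
    by_cases hij : i = j
    · subst hij
      simp
    · rw [if_neg hij]
      by_cases ha : (finProdFinEquiv.symm i).1 = (finProdFinEquiv.symm j).1
      · have hb : (finProdFinEquiv.symm i).2 ≠ (finProdFinEquiv.symm j).2 := by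
          intro hb
          apply hij
          have : finProdFinEquiv.symm i = finProdFinEquiv.symm j := Prod.ext ha hb
          exact finProdFinEquiv.symm.injective this
        rw [if_neg hb]
        simp
      · rw [if_neg ha]
        simp

theorem hom_lift_kr {k l : Type} [Fintype k] [Fintype l] [DecidableEq k] [DecidableEq l]
    {m n : ℕ} (S : Finset (k × l)) (M : Matrix (Fin m) (Fin m) ℤ) (H : Matrix (Fin n) (Fin n) ℤ) :
    hom S (lift (α := Fin (m * n)) (β := Fin (m * n)) (kr M H)) =
      hom S (fun i j => M i j) * hom S (lift (α := Fin n) (β := Fin n) H) := by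
  rw [← hom_prod]
  refine hom_reindex S _ _
    ⟨fun a => ((finProdFinEquiv.symm a.1).1, ((finProdFinEquiv.symm a.1).2, a.2)),
      fun a => (finProdFinEquiv (a.1, a.2.1), a.2.2), fun a => ?_, fun a => ?_⟩
    ⟨fun a => ((finProdFinEquiv.symm a.1).1, ((finProdFinEquiv.symm a.1).2, a.2)),
      fun a => (finProdFinEquiv (a.1, a.2.1), a.2.2), fun a => ?_, fun a => ?_⟩ (fun a b => ?_)
  · simp only [Prod.mk.eta, Equiv.apply_symm_apply]
  · simp only [Equiv.symm_apply_apply, Prod.mk.eta]
  · simp only [Prod.mk.eta, Equiv.apply_symm_apply]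
  · simp only [Equiv.symm_apply_apply, Prod.mk.eta]
  · simp only [lift, kr, Equiv.coe_fn_mk]
    ring

/-- Hadamard matrices with equal homomorphism sums are equivalent. -/
theorem equiv_of_hom {n : ℕ} {H K : Matrix (Fin n) (Fin n) ℤ} (hH : IsHadamard H)
    (hK : IsHadamard K)
    (key : ∀ S : Finset (Fin n × Fin n), hom S (lift (α := Fin n) (β := Fin n) H) =
      hom S (lift (α := Fin n) (β := Fin n) K)) : Equivalent H K := by
  obtain ⟨u, v, hHK⟩ := core H K hH.1 hK.1 key
  have hf : Function.Injective (fun i => (u i).1) := by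
    intro i i' hii
    simp only at hii
    refine transpose_hadamard_col hH i i' (((u i).2 : ℤ) * ((u i').2 : ℤ)) (fun j => ?_)
    rw [hHK, hHK]
    unfold lift
    rw [hii]
    have h1 : (((u i').2 : ℤˣ) : ℤ) * (((u i').2 : ℤˣ) : ℤ) = 1 := by
      rw [← Units.val_mul, Int.units_mul_self]; rfl
    linear_combination (-((u i).2 : ℤ) * ((v j).2 : ℤ) * K (u i').1 (v j).1) * h1
  have hg : Function.Injective (fun j => (v j).1) := by
    intro j j' hjj
    simp only at hjj
    refine col_inj hH j j' (((v j).2 : ℤ) * ((v j').2 : ℤ)) (fun i => ?_)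
    rw [hHK, hHK]
    unfold lift
    rw [hjj]
    have h1 : (((v j').2 : ℤˣ) : ℤ) * (((v j').2 : ℤˣ) : ℤ) = 1 := by
      rw [← Units.val_mul, Int.units_mul_self]; rfl
    linear_combination (-((u i).2 : ℤ) * ((v j).2 : ℤ) * K (u i).1 (v j').1) * h1
  have hf' := Finite.injective_iff_bijective.mp hf
  have hg' := Finite.injective_iff_bijective.mp hg
  apply Equivalent.symm
  exact ⟨Equiv.ofBijective _ hf', Equiv.ofBijective _ hg', fun i => (u i).2, fun j => (v j).2,
    fun i j => hHK i j⟩

/-- Cancellation of a good factor. -/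
theorem kr_cancel {m n : ℕ} {M : Matrix (Fin m) (Fin m) ℤ} (hM : Good (fun i j => M i j))
    {H K : Matrix (Fin n) (Fin n) ℤ} (hH : IsHadamard H) (hK : IsHadamard K)
    (h : Equivalent (kr M H) (kr M K)) : Equivalent H K := by
  refine equiv_of_hom hH hK (fun S => ?_)
  have h1 := hom_lift_eq S h
  rw [hom_lift_kr, hom_lift_kr] at h1
  exact (mul_left_cancel₀ (hM n S) h1).symm

theorem kr_equivalent {m n : ℕ} (M : Matrix (Fin m) (Fin m) ℤ) {H K : Matrix (Fin n) (Fin n) ℤ}
    (h : Equivalent H K) : Equivalent (kr M H) (kr M K) := by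
  obtain ⟨σ, τ, r, c, h⟩ := h
  refine ⟨(finProdFinEquiv.symm.trans ((Equiv.refl (Fin m)).prodCongr σ)).trans finProdFinEquiv,
    (finProdFinEquiv.symm.trans ((Equiv.refl (Fin m)).prodCongr τ)).trans finProdFinEquiv,
    fun i => r (finProdFinEquiv.symm i).2, fun j => c (finProdFinEquiv.symm j).2, fun i j => ?_⟩
  simp only [kr, Equiv.trans_apply, Equiv.symm_apply_apply, Equiv.prodCongr_apply,
    Prod.map_fst, Prod.map_snd, Equiv.refl_apply]
  rw [h]
  ring

/-- The map induced by the Kronecker product on equivalence classes. -/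
def krClass {m : ℕ} (M : Matrix (Fin m) (Fin m) ℤ) (hM : IsHadamard M) (n : ℕ) :
    Quotient (hadamardSetoid n) → Quotient (hadamardSetoid (m * n)) :=
  Quotient.map (fun H => (⟨kr M H.1, kr_hadamard hM H.2⟩ : HadamardMatrix (m * n)))
    (fun _ _ h => kr_equivalent M h)

theorem krClass_injective {m : ℕ} (M : Matrix (Fin m) (Fin m) ℤ) (hM : IsHadamard M)
    (hg : Good (fun i j => M i j)) (n : ℕ) : Function.Injective (krClass M hM n) := by
  intro x y
  refine Quotient.inductionOn₂ x y (fun H K hHK => ?_)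
  apply Quotient.sound
  have h1 := Quotient.exact hHK
  exact kr_cancel hg H.2 K.2 h1

/-- There is a Hadamard matrix of order `m` all of whose homomorphism sums are nonzero. -/
def GoodOrder (m : ℕ) : Prop :=
  ∃ M : Matrix (Fin m) (Fin m) ℤ, IsHadamard M ∧ Good (fun i j => M i j)

theorem goodOrder_mul {m m' : ℕ} (h : GoodOrder m) (h' : GoodOrder m') : GoodOrder (m * m') := by
  obtain ⟨M, hM, hg⟩ := h
  obtain ⟨M', hM', hg'⟩ := h'
  refine ⟨kr M M', kr_hadamard hM hM', fun n S => ?_⟩
  have : hom S (fun i j => kr M M' i j) = hom S (fun i j => M i j) * hom S (fun i j => M' i j) := by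
    rw [← hom_prod]
    exact hom_reindex S _ _ finProdFinEquiv.symm finProdFinEquiv.symm (fun a b => rfl)
  rw [this]
  exact mul_ne_zero (hg n S) (hg' n S)

/-- Transport of a matrix with abstract index types. -/
theorem goodOrder_of {ι : Type} [Fintype ι] [DecidableEq ι] (A : ι → ι → ℤ)
    (h1 : ∀ i j, A i j = 1 ∨ A i j = -1)
    (h2 : ∀ a b, ∑ k, A a k * A b k = if a = b then (Fintype.card ι : ℤ) else 0)
    (hg : Good A) : GoodOrder (Fintype.card ι) := by
  let e : Fin (Fintype.card ι) ≃ ι := (Fintype.equivFin ι).symm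
  refine ⟨fun i j => A (e i) (e j), isHadamard_of (fun i j => h1 _ _) (fun a b => ?_), ?_⟩
  · rw [Fintype.sum_equiv e _ (fun k => A (e a) k * A (e b) k) (fun k => rfl), h2]
    simp only [EmbeddingLike.apply_eq_iff_eq]
  · intro n S
    rw [hom_reindex S (fun i j => A (e i) (e j)) A e e (fun a b => rfl)]
    exact hg n S

theorem goodOrder_two : GoodOrder 2 := by
  have h : GoodOrder (Fintype.card (Fin 2)) := by
    refine goodOrder_of s2 (by unfold s2; decide) ?_ (fun n S => (hom_s2_pos S).ne')
    unfold s2; decide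
  simpa using h

theorem goodOrder_one : GoodOrder 1 := by
  have h : GoodOrder (Fintype.card Unit) := by
    refine goodOrder_of (fun _ _ => 1) (by simp) (by simp) (fun n S => ?_)
    unfold hom
    simp
  simpa using h

end Pool.Agent.Y332.HC
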