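import Pool.Agent.Y332.HC.Fix

/-!
The Paley matrices have nonzero homomorphism sums (helper332).
-/

set_option autoImplicit false

namespace Pool.Agent.Y332.HC

open Finset Pool.Agent.Results.MP_ced6ff_co.HadamardClasses

section

variable {F : Type} [Field F] [Fintype F] [DecidableEq F]

theorem chi_sq {a : F} (ha : a ≠ 0) : ((quadraticChar F) a) * ((quadraticChar F) a) = 1 := by
  have := quadraticChar_sq_one ha
  rwa [sq] at this

theorem chi_neg_sq : ((quadraticChar F) (-1)) * ((quadraticChar F) (-1)) = 1 := chi_sq (neg_ne_zero.mpr one_ne_zero)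

theorem corr (hF : ringChar F ≠ 2) (c : F) (hc : c ≠ 0) : ∑ z : F, (quadraticChar F) z * (quadraticChar F) (z + c) = -1 := by
  have hJ : ∑ x : F, (quadraticChar F) x * (quadraticChar F) (1 - x) = -(quadraticChar F) (-1) := by
    have h := jacobiSum_nontrivial_inv (quadraticChar_ne_one hF)
    rw [(quadraticChar_isQuadratic F).inv] at h
    exact h
  have hc' : -c ≠ 0 := neg_ne_zero.mpr hc
  rw [← Fintype.sum_equiv (Equiv.mulLeft₀ (-c) hc') (fun x => (quadraticChar F) (-c * x) * (quadraticChar F) (-c * x + c))
    (fun z => (quadraticChar F) z * (quadraticChar F) (z + c)) (fun x => rfl)]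
  have h1 : ∀ x : F, (quadraticChar F) (-c * x) * (quadraticChar F) (-c * x + c) = (quadraticChar F) (-1) * ((quadraticChar F) x * (quadraticChar F) (1 - x)) := by
    intro x
    have e1 : -c * x = (-1) * (c * x) := by ring
    have e2 : -c * x + c = c * (1 - x) := by ring
    rw [e2, e1, map_mul, map_mul, map_mul]
    linear_combination ((quadraticChar F) (-1) * (quadraticChar F) x * (quadraticChar F) (1 - x)) * chi_sq hc
  rw [Finset.sum_congr rfl (fun x _ => h1 x), ← Finset.mul_sum, hJ]
  linear_combination -(chi_neg_sq (F := F))

/-- The conference matrix of Paley. -/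
def Sc : Option F → Option F → ℤ
  | none, none => 0
  | none, some _ => 1
  | some _, none => (quadraticChar F) (-1)
  | some x, some y => (quadraticChar F) (x - y)

theorem Sc_symm (a b : Option F) : Sc b a = (quadraticChar F) (-1) * Sc a b := by
  cases a with
  | none => cases b with
    | none => simp [Sc]
    | some y => simp [Sc]
  | some x => cases b with
    | none => simp only [Sc]; exact chi_neg_sq.symm
    | some y =>
      simp only [Sc]
      rw [← map_mul]
      congr 1
      ring

theorem Sc_self (a : Option F) : Sc a a = 0 := by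
  cases a <;> simp [Sc]

theorem Sc_sign {a b : Option F} (h : a ≠ b) : Sc a b = 1 ∨ Sc a b = -1 := by
  cases a with
  | none => cases b with
    | none => exact absurd rfl h
    | some y => left; rfl
  | some x => cases b with
    | none => exact quadraticChar_dichotomy (neg_ne_zero.mpr one_ne_zero)
    | some y =>
      refine quadraticChar_dichotomy (sub_ne_zero.mpr ?_)
      rintro rfl
      exact h rfl

theorem sum_sub (hF : ringChar F ≠ 2) (x : F) : ∑ y : F, (quadraticChar F) (x - y) = 0 := by
  rw [Fintype.sum_equiv (Equiv.subLeft x) (fun y => (quadraticChar F) (x - y)) (fun y => (quadraticChar F) y) (fun y => rfl)]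
  exact quadraticChar_sum_zero hF

theorem Sc_rows (hF : ringChar F ≠ 2) (a b : Option F) :
    ∑ k, Sc a k * Sc b k = if a = b then (Fintype.card F : ℤ) else 0 := by
  rw [Fintype.sum_option]
  cases a with
  | none => cases b with
    | none => simp [Sc]
    | some x =>
      simp only [Sc, zero_mul, one_mul, zero_add, sum_sub hF]
      simp
  | some x => cases b with
    | none =>
      simp only [Sc, mul_zero, mul_one, zero_add, sum_sub hF]
      simp
    | some x' =>
      simp only [Sc, chi_neg_sq]
      by_cases hx : x = x'
      · subst hx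
        rw [if_pos rfl]
        have h1 : ∀ y : F, (quadraticChar F) (x - y) * (quadraticChar F) (x - y) = 1 - if y = x then 1 else 0 := by
          intro y
          by_cases hy : y = x
          · subst hy; simp
          · rw [chi_sq (sub_ne_zero.mpr (Ne.symm hy)), if_neg hy]; simp
        rw [Finset.sum_congr rfl (fun y _ => h1 y), Finset.sum_sub_distrib]
        simp
      · rw [if_neg (by simpa using hx)]
        have h2 : ∑ y : F, (quadraticChar F) (x - y) * (quadraticChar F) (x' - y) = -1 := by
          rw [← corr hF (x' - x) (sub_ne_zero.mpr (Ne.symm hx))]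
          refine Fintype.sum_equiv (Equiv.subLeft x) _ _ (fun y => ?_)
          simp only [Equiv.subLeft_apply]
          congr 2
          ring
        rw [h2]
        norm_num

/-- Translation by one. -/
def tr : Option F → Option F := Option.map (fun x => x + 1)

theorem tr_iter (n : ℕ) (a : Option F) : tr^[n] a = Option.map (fun x => x + (n : F)) a := by
  induction n generalizing a with
  | zero => cases a <;> simp
  | succ n ih =>
    rw [Function.iterate_succ_apply, ih]
    cases a with
    | none => rfl
    | some x =>
      simp only [tr, Option.map_some, Option.some.injEq]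
      push_cast
      ring

theorem tr_char {p : ℕ} [CharP F p] : (tr : Option F → Option F)^[p] = id := by
  funext a
  rw [tr_iter, CharP.cast_eq_zero]
  cases a <;> simp

theorem tr_fix (a : Option F) : tr a = a ↔ a = none := by
  cases a with
  | none => simp [tr]
  | some x => simp [tr]

theorem tr_inj (a b : Option F) : tr a = tr b ↔ a = b := by
  cases a <;> cases b <;> simp [tr]

theorem Sc_tr (a b : Option F) : Sc (tr a) (tr b) = Sc a b := by
  cases a <;> cases b <;> simp [tr, Sc]

/-- The first Paley matrix. -/
def P1 (a b : Option F) : ℤ := (if a = b then 1 else 0) + Sc a b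

theorem goodOrder_P1 {p : ℕ} [Fact p.Prime] [CharP F p] (hF : ringChar F ≠ 2)
    (hq : (quadraticChar F) (-1) = -1) : GoodOrder (Fintype.card F + 1) := by
  have h : GoodOrder (Fintype.card (Option F)) := by
    refine goodOrder_of P1 (fun a b => ?_) (fun a b => ?_) (fun n S => ?_)
    · unfold P1
      by_cases h : a = b
      · subst h; left; rw [Sc_self]; simp
      · rw [if_neg h, zero_add]; exact Sc_sign h
    · unfold P1
      have h1 : ∀ k, ((if a = k then (1 : ℤ) else 0) + Sc a k) * ((if b = k then 1 else 0) + Sc b k) =
          (if a = k then (if b = k then 1 else 0) + Sc b k else 0) +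
            (if b = k then Sc a k else 0) + Sc a k * Sc b k := by
        intro k
        split_ifs <;> ring
      rw [Finset.sum_congr rfl (fun k _ => h1 k), Finset.sum_add_distrib, Finset.sum_add_distrib,
        Finset.sum_ite_eq, Finset.sum_ite_eq, Sc_rows hF]
      simp only [Finset.mem_univ, if_true]
      rw [Sc_symm a b, hq, Fintype.card_option]
      by_cases h : a = b
      · subst h; rw [if_pos rfl, if_pos rfl, if_pos rfl]; push_cast; ring
      · rw [if_neg h, if_neg h, if_neg (Ne.symm h)]; ring
    · have hs : ∀ a b : Option F, P1 a b = 1 ∨ P1 a b = -1 := by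
        intro a b
        unfold P1
        by_cases h : a = b
        · subst h; left; rw [Sc_self]; simp
        · rw [if_neg h, zero_add]; exact Sc_sign h
      have := hom_fixed (p := p) (α0 := Unit) (β0 := Unit) P1 hs tr tr tr_char tr_char
        (fun a b => by unfold P1; rw [Sc_tr]; simp only [tr_inj])
        (fun _ => none) (fun _ => none) (fun _ _ _ => rfl) (fun _ _ _ => rfl)
        (fun a => by rw [tr_fix]; exact ⟨fun h => ⟨(), h.symm⟩, fun ⟨_, h⟩ => h.symm⟩)
        (fun a => by rw [tr_fix]; exact ⟨fun h => ⟨(), h.symm⟩, fun ⟨_, h⟩ => h.symm⟩) n S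
      have h2 : hom S (fun (_ _ : Unit) => (P1 (none : Option F) none)) = 1 := by
        unfold hom P1 Sc
        simp
      rw [h2] at this
      intro h0
      rw [h0] at this
      have h3 := (Int.modEq_iff_dvd.mp this)
      rw [sub_zero] at h3
      have h4 : p ∣ 1 := by exact_mod_cast h3
      exact (Fact.out : p.Prime).one_lt.ne' (Nat.dvd_one.mp h4)
  rwa [Fintype.card_option] at h

/-- The second block of the second Paley matrix. -/
def B2 (a b : Fin 2) : ℤ := if a = 0 ∧ b = 0 then 1 else -1

/-- The second Paley matrix. -/
def P2 (a b : Option F × Fin 2) : ℤ :=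
  Sc a.1 b.1 * s2 a.2 b.2 + if a.1 = b.1 then B2 a.2 b.2 else 0

theorem B2_s2 : ∀ a b : Fin 2, B2 a b = -(s2 (1 - a) (1 - b)) := by
  unfold B2 s2; decide

theorem P2_sign (a b : Option F × Fin 2) : P2 a b = 1 ∨ P2 a b = -1 := by
  unfold P2
  by_cases h : a.1 = b.1
  · rw [if_pos h, h, Sc_self, zero_mul, zero_add]
    unfold B2
    split_ifs <;> simp
  · rw [if_neg h, add_zero]
    rcases Sc_sign h with h1 | h1 <;> rw [h1] <;> unfold s2 <;> split_ifs <;> simp

theorem P2_iter {p : ℕ} [CharP F p] :
    (fun a : Option F × Fin 2 => (tr a.1, a.2))^[p] = id := by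
  have : ∀ (k : ℕ) (a : Option F × Fin 2),
      (fun a : Option F × Fin 2 => (tr a.1, a.2))^[k] a = (tr^[k] a.1, a.2) := by
    intro k
    induction k with
    | zero => intro a; rfl
    | succ k ih =>
      intro a
      rw [Function.iterate_succ_apply, ih, Function.iterate_succ_apply]
  funext a
  rw [this, tr_char]
  rfl

theorem P2_fix (a : Option F × Fin 2) :
    (fun a : Option F × Fin 2 => (tr a.1, a.2)) a = a ↔ ∃ x : Fin 2, (none, x) = a := by
  obtain ⟨a, x⟩ := a
  simp only [Prod.mk.injEq, and_true, tr_fix]
  constructor
  · rintro rfl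
    exact ⟨x, rfl, rfl⟩
  · rintro ⟨_, h, _⟩
    exact h.symm

theorem goodOrder_P2 {p : ℕ} [Fact p.Prime] [CharP F p] (hF : ringChar F ≠ 2) (hp2 : p ≠ 2)
    (hq : (quadraticChar F) (-1) = 1) : GoodOrder (2 * (Fintype.card F + 1)) := by
  have h : GoodOrder (Fintype.card (Option F × Fin 2)) := by
    refine goodOrder_of P2 P2_sign (fun a b => ?_) (fun n S => ?_)
    · obtain ⟨a, x⟩ := a
      obtain ⟨b, y⟩ := b
      rw [Fintype.sum_prod_type]
      have g11 : ∀ x y : Fin 2, s2 x 0 * s2 y 0 + s2 x 1 * s2 y 1 = if x = y then 2 else 0 := by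
        unfold s2; decide
      have g22 : ∀ x y : Fin 2, B2 x 0 * B2 y 0 + B2 x 1 * B2 y 1 = if x = y then 2 else 0 := by
        unfold B2; decide
      have g12 : ∀ x y : Fin 2, (s2 x 0 * B2 y 0 + s2 x 1 * B2 y 1) +
          (B2 x 0 * s2 y 0 + B2 x 1 * s2 y 1) = 0 := by
        unfold B2 s2; decide
      have h1 : ∀ k : Option F, (∑ c : Fin 2, P2 (a, x) (k, c) * P2 (b, y) (k, c)) =
          (Sc a k * Sc b k) * (s2 x 0 * s2 y 0 + s2 x 1 * s2 y 1) +
          (if b = k then Sc a k * (s2 x 0 * B2 y 0 + s2 x 1 * B2 y 1) else 0) +
          (if a = k then Sc b k * (B2 x 0 * s2 y 0 + B2 x 1 * s2 y 1) +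
            (if b = k then (B2 x 0 * B2 y 0 + B2 x 1 * B2 y 1) else 0) else 0) := by
        intro k
        rw [Fin.sum_univ_two]
        unfold P2
        simp only
        split_ifs <;> ring
      rw [Finset.sum_congr rfl (fun k _ => h1 k), Finset.sum_add_distrib, Finset.sum_add_distrib,
        ← Finset.sum_mul, Sc_rows hF, Finset.sum_ite_eq, Finset.sum_ite_eq, g11, g22]
      simp only [Finset.mem_univ, if_true]
      have hsym : Sc b a = Sc a b := by rw [Sc_symm a b, hq, one_mul]
      rw [hsym]
      have hz := g12 x y
      have hcard : (Fintype.card (Option F × Fin 2) : ℤ) = 2 * ((Fintype.card F : ℤ) + 1) := by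
        rw [Fintype.card_prod, Fintype.card_option, Fintype.card_fin]
        push_cast
        ring
      rw [hcard]
      by_cases hab : a = b
      · subst hab
        by_cases hxy : x = y
        · subst hxy
          simp only [if_true]
          linear_combination (Sc a a) * hz
        · have : ¬ ((a, x) = (a, y)) := by
            intro h; exact hxy (Prod.ext_iff.mp h).2
          rw [if_neg hxy, if_neg this]
          simp only [if_true]
          linear_combination (Sc a a) * hz
      · have h3 : ¬ ((a, x) = (b, y)) := by
          intro h; exact hab (Prod.ext_iff.mp h).1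
        rw [if_neg hab, if_neg h3, if_neg (Ne.symm hab)]
        linear_combination (Sc a b) * hz
    · have := hom_fixed (p := p) (α0 := Fin 2) (β0 := Fin 2) P2 P2_sign
        (fun a : Option F × Fin 2 => (tr a.1, a.2)) (fun a => (tr a.1, a.2)) ?_ ?_
        (fun a b => by unfold P2; rw [Sc_tr]; simp only [tr_inj])
        (fun c => (none, c)) (fun c => (none, c)) (fun _ _ h => (Prod.ext_iff.mp h).2)
        (fun _ _ h => (Prod.ext_iff.mp h).2) ?_ ?_ n S
      · have h2 : hom S (fun (a b : Fin 2) => (P2 ((none : Option F), a) (none, b))) =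
            (-1) ^ S.card * hom S s2 := by
          have h3 : hom S (fun (a b : Fin 2) => (P2 ((none : Option F), a) (none, b))) =
              hom S (fun (a b : Fin 2) => (-1) * s2 a b) := by
            refine hom_reindex S _ _ (Equiv.subLeft 1) (Equiv.subLeft 1) (fun a b => ?_)
            simp only [P2, Sc_self, zero_mul, zero_add, if_true, Equiv.subLeft_apply]
            rw [B2_s2]
            ring
          rw [h3]
          unfold hom
          rw [Finset.mul_sum]
          refine Finset.sum_congr rfl (fun u _ => ?_)
          rw [Finset.mul_sum]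
          refine Finset.sum_congr rfl (fun v _ => ?_)
          rw [Finset.prod_mul_distrib, Finset.prod_const]
        rw [h2] at this
        intro h0
        rw [h0] at this
        have h3 := (Int.modEq_iff_dvd.mp this)
        rw [sub_zero] at h3
        have hu : IsUnit ((-1 : ℤ) ^ S.card) := (isUnit_one.neg).pow _
        exact good_s2_mod (Fact.out : p.Prime) hp2 n S ((hu.dvd_mul_left).mp h3)
      · exact P2_iter
      · exact P2_iter
      · exact P2_fix
      · exact P2_fix
  rw [Fintype.card_prod, Fintype.card_option, Fintype.card_fin] at h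
  rwa [mul_comm] at h

end

end Pool.Agent.Y332.HC
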